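import Pool.Agent.AEC.StmtsB
import Pool.Agent.AEC.StmtsZ

/-!
# Squad AEC, row A2F: `χ⁺` rounds (Theorem A)
-/

open FirstOrder FirstOrder.Language Cardinal Set

universe u

namespace Pool.Agent.AEC.H95

theorem bdd_of_le (χ : Cardinal.{u}) (hχ : ℵ₀ ≤ χ) {ι : Type u} (hι : #ι ≤ χ)
    (s : ι → (Order.succ χ).ord.ToType) : ∃ i, ∀ a, s a ≤ i := by
  by_contra hcon
  have h1 : IsCofinal (Set.range s) := by
    intro i
    by_contra hno
    apply hcon
    refine ⟨i, fun a => ?_⟩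
    by_contra ha
    exact hno ⟨s a, ⟨a, rfl⟩, (not_le.1 ha).le⟩
  have h2 := Order.cof_le h1
  rw [Ordinal.cof_toType, (Cardinal.isRegular_succ hχ).cof_ord] at h2
  exact absurd (h2.trans (Cardinal.mk_range_le.trans hι)) (not_le.2 (Order.lt_succ χ))

theorem a2f (a1f : A1fStmt.{u}) (trc : TrcStmt.{u}) (ccl : CclStmt.{u}) (dlm : DlmStmt.{u}) :
    A2fStmt.{u} := by
  intro L κ K l χ hκχ hl hlχ hcat
  obtain ⟨⟨P, hP⟩, hiso⟩ := hcat
  have hχ : ℵ₀ ≤ χ := K.aleph0_le.trans hκχ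
  have hχl : χ < l := by
    calc χ < 2 ^ χ := Cardinal.cantor χ
      _ ≤ l ^ χ := Cardinal.power_le_power_right ((Cardinal.natCast_le_aleph0 (n := 2)).trans hl)
      _ = l := hlχ
  have hc : ℵ₀ ≤ Order.succ χ := hχ.trans (Order.le_succ _)
  have hne : Nonempty (Order.succ χ).ord.ToType :=
    Cardinal.nonempty_ord_toType (by
      intro h
      rw [h] at hc
      exact absurd hc (not_le.2 Cardinal.aleph0_pos))
  have hmax : NoMaxOrder (Order.succ χ).ord.ToType := Cardinal.noMaxOrder hc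
  have hQ : K.ChainClosed (fun A => #A.α = l) l := (ccl L κ K l hl).2
  have hQ' : K.ChainClosed (fun A => #A.α = l) χ := by
    intro J _ _ _ _ hJ F m B s h1 h2 h3
    exact hQ J (hJ.trans hχl.le) F m B s h1 h2 h3
  obtain ⟨F, m, b, hid, hcomp, hb, hQF, hR⟩ := trc L κ K P (fun A => #A.α = l)
    (fun A B _ f => ∀ (S : L.Substructure A.α) (h : K.emb S.subtype), #S ≤ χ →
      ∀ (C : K.Mod) (g : K.Hom B C), #C.α = l →
        K.Dq P (g.comp (f.comp (AEC.subHom A S h))) = K.Dq P (f.comp (AEC.subHom A S h)))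
    (Order.succ χ).ord.ToType χ
    (fun j => Order.lt_succ_iff.1 (Cardinal.mk_Iio_toType_ord_lt j)) hQ' hP
    (fun A _ hA => a1f L κ K l χ hκχ hl hlχ P A hP hA)
  obtain ⟨G, s, hs, hsurj⟩ := dlm L κ K (Order.succ χ).ord.ToType F m hid hcomp
  have hG : #G.α = l := hQ _ (by rw [Cardinal.mk_ord_toType]; exact Order.succ_le_of_lt hχl)
    F m G s hs hsurj hQF
  refine ⟨G, hG, ?_⟩
  intro A hA ι C f hC
  obtain ⟨S, hAS, hS, hScard⟩ := K.ls G.prop A
  have hSχ : #S ≤ χ := by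
    refine hScard.trans ?_
    calc #A + κ ≤ χ + χ := add_le_add hA hκχ
      _ = χ := Cardinal.add_eq_self hχ
  -- a stage which contains `S`
  have hst : ∀ x : S, ∃ (i : (Order.succ χ).ord.ToType) (y : (F i).α), s i y = (x : G.α) :=
    fun x => hsurj x
  choose ix yx hyx using hst
  obtain ⟨i, hi⟩ := bdd_of_le χ hχ hSχ ix
  obtain ⟨e', he'⟩ := AEC.Hom.exists_factor (AEC.subHom G S hS) (s i) (fun a => by
    refine ⟨m (ix a) i (hi a) (yx a), ?_⟩
    rw [hs, hyx a]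
    rfl)
  letI : SuccOrder (Order.succ χ).ord.ToType := SuccOrder.ofLinearWellFoundedLT _
  have hij : i ⋖ Order.succ i := Order.covBy_succ i
  set j := Order.succ i with hjdef
  have hS' : #e'.toEmb.toHom.range ≤ χ := by
    refine le_trans ?_ hSχ
    exact Cardinal.mk_range_le (f := fun x => e'.toEmb x)
  have hst := hR i j hij e'.toEmb.toHom.range e'.emb_range hS'
  -- the map of the stage `j` to `P`
  obtain ⟨θ⟩ := hiso (F j) P (hQF j) hP
  have hh : ∀ k, ∃ w : K.Hom (C k) P, ∀ x : e'.toEmb.toHom.range,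
      w (f k (s j (m i j hij.le (x : (F i).α)))) = θ (m i j hij.le (x : (F i).α)) := by
    intro k
    have h1 := hst (C k) ((f k).comp (s j)) (hC k)
    have h2 : (AEC.Hom.ofEquiv θ).comp ((m i j hij.le).comp
        (AEC.subHom (F i) e'.toEmb.toHom.range e'.emb_range)) ∈
        K.Dq P ((m i j hij.le).comp (AEC.subHom (F i) e'.toEmb.toHom.range e'.emb_range)) :=
      ⟨AEC.Hom.ofEquiv θ, fun x => rfl⟩
    rw [← h1] at h2
    obtain ⟨g, hg⟩ := h2
    exact ⟨g, fun x => hg x⟩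
  choose w hw using hh
  refine ⟨P, w, ?_⟩
  intro k k' x hx
  have key : ∀ k, w k (f k x) = θ (m i j hij.le (e' ⟨x, hAS hx⟩)) := by
    intro k
    have h1 := hw k ⟨e' ⟨x, hAS hx⟩, ⟨⟨x, hAS hx⟩, rfl⟩⟩
    have h2 : s j (m i j hij.le (e' ⟨x, hAS hx⟩)) = x :=
      (hs i j hij.le _).trans (he' ⟨x, hAS hx⟩)
    have h3 : s j (m i j hij.le ((⟨e' ⟨x, hAS hx⟩, ⟨⟨x, hAS hx⟩, rfl⟩⟩ :
      e'.toEmb.toHom.range) : (F i).α)) = x := h2
    rw [h3] at h1
    exact h1
  rw [key k, key k']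

end Pool.Agent.AEC.H95
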